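import Pool.Agent.Work.MP_ce2d68_st.Interface

set_option autoImplicit false

namespace Pool.Agent.Work.MP_ce2d68_st.helper36

lemma arg_near_one' {ε : ℝ} (hε : 0 < ε) : ∃ δ : ℝ, 0 < δ ∧ ∀ w : ℂ, ‖w - 1‖ < δ → |w.arg| < ε := by
  have h : ContinuousAt Complex.arg 1 := Complex.continuousAt_arg (by simp)
  obtain ⟨δ, hδ, hw⟩ := Metric.continuousAt_iff.1 h ε hε
  refine ⟨δ, hδ, fun w hw' => ?_⟩
  have := hw (x := w) (by rwa [dist_eq_norm])
  simpa [Real.dist_eq] using this

theorem stmt_BIG : Stmt_BIG := by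
  intro θ h0 _
  obtain ⟨δ, hδ, hw⟩ := arg_near_one' h0
  set b : ℝ := max 11 (20 / δ) with hb
  have hb11 : 11 ≤ b := le_max_left _ _
  have hb0 : 0 < b := by linarith
  have hbδ : 20 ≤ b * δ := by
    have := le_max_right 11 (20 / δ)
    rw [← hb, div_le_iff₀ hδ] at this
    exact this
  refine ⟨b, by linarith, ?_, ?_⟩
  · intro z hz
    constructor
    · set w : ℂ := z / b with hwd
      have hbc : (b : ℂ) ≠ 0 := by exact_mod_cast hb0.ne'
      have hz' : z = b * w := by rw [hwd]; field_simp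
      have h3 : ‖w - 1‖ < δ := by
        have : w - 1 = (z - b) / b := by rw [hwd]; field_simp
        rw [this, norm_div, Complex.norm_real, Real.norm_of_nonneg hb0.le, div_lt_iff₀ hb0]
        nlinarith
      rw [hz', Complex.arg_real_mul _ hb0]
      exact (hw w h3).le
    · have h1 : z = (z - b) + b := by ring
      calc ‖z‖ = ‖(z - b) + b‖ := by rw [← h1]
        _ ≤ ‖z - b‖ + ‖(b : ℂ)‖ := norm_add_le _ _
        _ ≤ 10 + b := by rw [Complex.norm_real, Real.norm_of_nonneg hb0.le]; linarith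
        _ ≤ 2 * b := by linarith
  · have hcont : Continuous fun z : ℂ => Real.log (max ‖z - b‖ 10) := by
      refine Continuous.log (by fun_prop) fun z => ?_
      have : (10 : ℝ) ≤ max ‖z - b‖ 10 := le_max_right _ _
      linarith
    refine Real.circleAverage_mono_on_of_le_circle (hcont.continuousOn.circleIntegrable (by norm_num)) ?_
    intro z hz
    have hz1 : ‖z‖ = 1 := by simpa using hz
    have h1 : ‖z - b‖ ≤ 2 * b := by
      calc ‖z - b‖ ≤ ‖z‖ + ‖(b : ℂ)‖ := norm_sub_le _ _
        _ = 1 + b := by rw [Complex.norm_real, Real.norm_of_nonneg hb0.le, hz1]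
        _ ≤ 2 * b := by linarith
    have h2 : (10 : ℝ) ≤ max ‖z - b‖ 10 := le_max_right _ _
    exact Real.log_le_log (by linarith) (max_le h1 (by linarith))

end Pool.Agent.Work.MP_ce2d68_st.helper36
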