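import Pool.Agent.Work.MP_ce2d68_st.Interface

set_option autoImplicit false

namespace Pool.Agent.Work.MP_ce2d68_st.helper36

lemma arg_near_one {ε : ℝ} (hε : 0 < ε) : ∃ δ : ℝ, 0 < δ ∧ ∀ w : ℂ, ‖w - 1‖ < δ → |w.arg| < ε := by
  have h : ContinuousAt Complex.arg 1 := Complex.continuousAt_arg (by simp)
  obtain ⟨δ, hδ, hw⟩ := Metric.continuousAt_iff.1 h ε hε
  refine ⟨δ, hδ, fun w hw' => ?_⟩
  have := hw (x := w) (by rwa [dist_eq_norm])
  simpa [Real.dist_eq] using this

theorem stmt_GEO2 : Stmt_GEO2 := by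
  intro θ θ' h0 h1 h2
  obtain ⟨δ, hδ, hw⟩ := arg_near_one (sub_pos.2 h1)
  refine ⟨min (δ / 2) (1 / 16), by positivity, min_le_right _ _, ?_⟩
  intro a z ha harg hz
  have hna : 0 < ‖a‖ := norm_pos_iff.2 ha
  set w := z / a with hwd
  have hz' : z = a * w := by rw [hwd]; field_simp
  have h3 : ‖w - 1‖ ≤ min (δ / 2) (1 / 16) := by
    have : w - 1 = (z - a) / a := by rw [hwd]; field_simp
    rw [this, norm_div, div_le_iff₀ hna]
    exact hz
  have h4 : ‖w - 1‖ < δ := by
    have := h3.trans (min_le_left _ _)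
    linarith
  have h5 := hw w h4
  have hw0 : w ≠ 0 := by
    intro h
    rw [h] at h3
    have := h3.trans (min_le_right _ _)
    norm_num at this
  have hs : |a.arg + w.arg| ≤ θ' := by
    have := abs_add_le a.arg w.arg
    linarith
  have hs' := abs_le.1 hs
  have h6 : (a * w).arg = a.arg + w.arg := by
    rw [Complex.arg_mul_eq_add_arg_iff ha hw0]
    exact ⟨by linarith, by linarith⟩
  rw [hz', h6]
  exact hs

end Pool.Agent.Work.MP_ce2d68_st.helper36
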